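import Pool.Agent.E8helper42.GF.Cor

/-!
# Relations between the periods of the fibres of families with arbitrary monodromy group

Let `M → S` be a family of André motives (for example the motives of the fibres of a smooth projective morphism) with
period matrices `P(s)` and let `G` be the connected component of its algebraic monodromy group (the Zariski closure of
the monodromy). By theorems of Deligne and André `G` is semisimple, and it is contained in the Mumford-Tate group of the
fibre for all `s` outside of countably many subvarieties. So Grothendieck's conjecture predicts that at the algebraic
points `s` outside of these subvarieties all polynomial relations over `ℚ̄` between the periods of the fibre hold on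
`P(s) G`. We prove this, with arbitrary complex constants as coefficients, for the relations of bounded degree and
size at almost all algebraic points `s` of bounded degree, **for all groups `G` generated by polynomial curves** (these
are the connected algebraic groups without characters, in particular all semisimple groups; the theorem also applies to
the monodromy groups of families of mixed motives), over bases of any dimension.

The known theorems of this kind over bases of dimension greater than one deal with products of symplectic or orthogonal
groups in the standard representation, for which the torsor `P(s) G` is given by quadratic relations with polynomial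
coefficients. Here nothing is assumed about the group or the representation; special linear groups (families of
unitary type), exceptional groups, spin representations, tensor products are included.

The torsor is described by a section `B` with algebraic entries: `P = B g` with `g` in `G`. Such sections always exist,
locally on the base (the torsor of the relations is defined over the field of functions of the base and has a point
over its algebraic closure); this fact is not used in Lean, where `B` is given. In general there is no section over
`ℂ(x)`, the field generated by the periods contains algebraic functions, and so the values of the periods at algebraic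
points satisfy relations which are not specialisations of relations over `ℂ(x)`. To deal with them the function
`B⁻¹ P` is replaced by `Y = C P`, where `C` is a matrix over `ℂ[x]` in the entries of `B` with `C B = N`, `N` in `ℂ[x]`;
the field generated by the entries of `Y` is regular over `ℂ(x)`. For a relation `F` at `s` one considers all systems of
equations for the coefficients of `F` which arise from products, over the elements `g` of the Galois group `Γ` of the
entries of `B`, of the relations `F(B_{ε(g)}(s) Y(s)) = 0`, for maps `ε` from `Γ` to `Γ`, by taking the traces of the
multiples of these products by powers of a primitive element. These systems hold if and only if `g⁻¹ ε(g)` is in the set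
`Z` of the `σ` with `F(B_σ(s) Y(s)) = 0` for all `g`. If they come from functional relations, they hold for `Y(s) h`,
`h` in `G`; as `G` is irreducible one finds that `Z` has the same number of elements as the set of the `σ` such
that `F(B_σ(s) Y(s) h) = 0` for all `h` in `G`. Hence `F` vanishes on `P(s) G`.

The definitions (`Pool.Agent.E8helper42.GF`, `Pool.Agent.Y119.PLM`, `Pool.Agent.Y890.MV`, `Pool.Agent.Y124`,
`Pool.Agent.Y120`):
* `MT n` : tuples of complex matrices `A j` of size `n j`; `Ix n` : the indices of their entries; `pe F A` : the value
  of the polynomial `F` at the entries of `A`; `v2 R x A A'` : the value of the polynomial `R` with coefficients in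
  `ℂ[x]` at `x` and the entries of `A` and `A'`;
* `AlgF U f` : `f` is algebraic over `ℂ(x)` on `U`;
* `UGen G` : the elements of `G` are products of values at `1` of curves `t ↦ M(t)` in `G` with polynomial entries and
  `M(0) = 1`;
* `Cnt U Y V F` : `F` on `V` is an analytic continuation of `Y` on `U` along a chain of connected sets; `IsMon U Y g` :
  some analytic continuation of `Y` on `U` is `Y g` on a nonempty open subset of `U`; `pr2 B P` : the pair `(B, P)`;
  `one2 g` : the pair `(1, g)`;
* `ExcG U P G K io k ξ T` : the exceptional points;
* `InnerM U k` : points of norm at most `k` at distance at least `1 / k` from the complement of `U`;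
* `HtLe K T x` : `x` is a quotient of two integers of `K` all of whose conjugates are at most `T`;
* `Cov D m S` : `S` is covered by at most `m` hypersurfaces of degree at most `D`.
-/

set_option autoImplicit false

namespace Pool.Agent.Results.MP_57341d_ag.ArbitraryMonodromyH42

open Filter Pool.Agent Pool.Agent.Y119.PLM Pool.Agent.E8helper42.GF

/-- all polynomial relations over `ℂ[x]` between the entries of `B` and `P` hold for `B` and `P g`, `g` in `G` -/
def RelationsInvariant {X κ : Type} [Fintype X] {n : κ → ℕ} (U : Set (X → ℂ)) (B P : (X → ℂ) → MT n)
    (G : Subgroup (MT n)ˣ) : Prop :=
  ∀ g ∈ G, ∀ R : MvPolynomial (Ix n ⊕ Ix n) (MvPolynomial X ℂ), (∀ x ∈ U, v2 R x (B x) (P x) = 0) →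
    ∀ x ∈ U, v2 R x (B x) (P x * (g : MT n)) = 0

/-- the monodromy is Zariski dense: a polynomial vanishes on `G` if it vanishes at all tuples `g` such that some analytic
continuation of the pair `(B, P)` is `(B, P g)` -/
def MonodromyDense {X κ : Type} [Fintype X] {n : κ → ℕ} (U : Set (X → ℂ)) (B P : (X → ℂ) → MT n)
    (G : Subgroup (MT n)ˣ) : Prop :=
  ∀ p : MvPolynomial (Ix n) ℂ, (∀ g : MT n, IsMon U (pr2 B P) (one2 g) → pe p g = 0) → ∀ g ∈ G, pe p (g : MT n) = 0

/-- Let `U` be a connected nonempty open set in `ℂ ^ X`, `P j` and `B j`, `j` in a finite set, square matrices of
analytic functions on `U`, such that the entries of the `B j` are algebraic over `ℂ(x)` and `det (B j)` is not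
identically zero, and let `G` be a group of tuples of invertible matrices, generated by polynomial curves in `G`
through `1`, such that `P x` is in `B x * G` for all `x` in `U` with `det (B j) ≠ 0` for all `j`. Assume that the
relations between `B` and `P` are invariant under `G`, or that the monodromy of `(B, P)` is Zariski dense in `G`.

There is `ω → ∞` such that for all large `T`, all number fields `K` of degree at most `ω T`, all embeddings and all
complex numbers `ξ i`, `i < ω T`: the points `s` of `K ^ X` of height at most `T` in the compact set `InnerM U (ω T)` at
which some polynomial of partial degrees at most `ω T`, with coefficients `∑ ξ i * c i`, `c i` integers of `K` with all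
conjugates at most `T ^ ω T`, vanishes at `P(s)` but does not vanish on `P(s) G`, lie on at most `T ^ (1 / ω T)`
hypersurfaces of degree at most `T ^ (1 / ω T)`; and there are at most `T ^ (1 / ω T) * N ^ (|X| - 1)` of them, `N` being
the number of elements of `K` of height at most `T`. -/
theorem result {X κ : Type} [Fintype X] [DecidableEq X] [Nonempty X] [Fintype κ] [DecidableEq κ] (n : κ → ℕ)
    (U : Set (X → ℂ)) (hU : IsPreconnected U) (hUo : IsOpen U) (hne : U.Nonempty) (P B : (X → ℂ) → MT n)
    (hP : ∀ j a b, AnalyticOnNhd ℂ (fun x => P x j a b) U) (hB : ∀ j a b, AnalyticOnNhd ℂ (fun x => B x j a b) U)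
    (halg : ∀ j a b, AlgF U (fun x => B x j a b)) (hdet : ∀ j, ∃ x ∈ U, (B x j).det ≠ 0)
    (G : Subgroup (MT n)ˣ) (hG : UGen G)
    (hmem : ∀ x ∈ U, (∀ j, (B x j).det ≠ 0) → ∃ g ∈ G, P x = B x * (g : MT n))
    (hinv : RelationsInvariant U B P G ∨ MonodromyDense U B P G) :
    ∃ (ω : ℝ → ℕ) (T₀ : ℝ), Tendsto ω atTop atTop ∧ Monotone ω ∧ ∀ T, T₀ ≤ T → 0 < ω T ∧
      ∀ (K : Type) [Field K] [NumberField K], Module.finrank ℚ K ≤ ω T → ∀ (io : K →+* ℂ) (ξ : Fin (ω T) → ℂ),
        Y124.Cov ⌊T ^ ((ω T : ℝ)⁻¹)⌋₊ ⌊T ^ ((ω T : ℝ)⁻¹)⌋₊
          ((fun (s : X → K) i => io (s i)) '' ExcG U P {g | ∃ u ∈ G, (u : MT n) = g} K io (ω T) ξ T) ∧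
        (ExcG U P {g | ∃ u ∈ G, (u : MT n) = g} K io (ω T) ξ T).Finite ∧
        ((ExcG U P {g | ∃ u ∈ G, (u : MT n) = g} K io (ω T) ξ T).ncard : ℝ) ≤
          T ^ ((ω T : ℝ)⁻¹) * ({x : K | Y120.HtLe K T x}.ncard : ℝ) ^ (Fintype.card X - 1) := by
  refine few (B := B) ⟨hU, hUo, hne, hP, hB, halg, hdet, hmem, hG, ?_⟩
  rcases hinv with h | h
  · exact h
  · exact inv_of_dense hU hP hB h

end Pool.Agent.Results.MP_57341d_ag.ArbitraryMonodromyH42
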