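import Pool.Agent.E8helper43.HS.BGal

/-!
# Periods of hypergeometric motives which are not self-dual: for almost all fibres all relations of bounded degree come
from the special linear groups

Let `β_1, …, β_n` be rational numbers which are not integers, with sum `0`, and `θ = z d/dz`. The hypergeometric operator
`θ^n - z ∏_j (θ - β_j)` has maximally unipotent monodromy at `z = 0` and a transvection as monodromy at `z = 1`. Its
solutions are periods of a family of motives over `ℚ(z)` with coefficients in a cyclotomic field. This family is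
self-dual if and only if the `β_j` modulo `ℤ` are a permutation of the `-β_j`. We treat the families which are not
self-dual, and direct sums of such families at the same fibre, for example of all the families which are conjugate to a
given one under the Galois group of the coefficient field, one of every pair of complex conjugate ones.
-/

set_option autoImplicit false

open PowerSeries

namespace Pool.Agent.Results.MP_57341d_ag.NonSelfDualMotivesH43

/-- the power series `k + ε` in the variable `ε` -/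
noncomputable def shift (k : ℕ) : PowerSeries ℚ := C (k : ℚ) + X

/-- `a_k(ε) = ∏_{l < k} ∏_j (l + ε - β_j) / (l + 1 + ε)^n`. The series `∑_k a_k(ε) z^(k + ε)` solves the equation
`(θ^n - z ∏_j (θ - β_j)) f = ε^n z^ε`, hence its coefficients `f_j` at `ε^j` with `j < n` are solutions of the
homogeneous equation. -/
noncomputable def frob {n : ℕ} (β : Fin n → ℚ) (k : ℕ) : PowerSeries ℚ :=
  ∏ l ∈ Finset.range k, ((∏ j, (shift l - C (β j))) * ((shift (l + 1))⁻¹) ^ n)

/-- The matrix with the entries `(θ^i f_j)(1 / t)`, where `f_j(z)` is the coefficient of `ε^j` in the series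
`∑_k a_k(ε) z^(k + ε)`, `z^ε = ∑_l (log z)^l ε^l / l!`. -/
noncomputable def Y {n : ℕ} (β : Fin n → ℚ) (t : ℕ) : Matrix (Fin n) (Fin n) ℂ :=
  Matrix.of fun i j => ∑ l ∈ Finset.range ((j : ℕ) + 1), ((Real.log (1 / t) ^ l / l.factorial : ℝ) : ℂ) *
    ∑' k : ℕ, ((coeff ((j : ℕ) - l) (shift k ^ (i : ℕ) * frob β k) : ℚ) : ℂ) * (1 / (t : ℂ)) ^ k

/-- `β` and `γ` agree modulo the integers, up to the order -/
def Equiv' {n m : ℕ} (β : Fin n → ℚ) (γ : Fin m → ℚ) : Prop := ∃ σ : Fin m ≃ Fin n, ∀ j, ∃ a : ℤ, β (σ j) - γ j = a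

/-- the parameters of one family: not integers, with sum `0`, and not a permutation of their negatives modulo `ℤ` -/
def NonSelfDual {n : ℕ} (β : Fin n → ℚ) : Prop :=
  (∀ j, ∀ a : ℤ, β j ≠ a) ∧ ∑ j, β j = 0 ∧ ¬ Equiv' β fun j => -β j

/-- the period matrix of the direct sum of the families `β_a`, `1 ≤ a ≤ r`, at the fibre `z = 1 / t` -/
noncomputable def YY {r : ℕ} {n : Fin r → ℕ} (β : ∀ a, Fin (n a) → ℚ) (t : ℕ) :
    Matrix (Σ a, Fin (n a)) (Σ a, Fin (n a)) ℂ := Matrix.blockDiagonal' fun a => Y (β a) t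

/-- the product of the groups `SL_{n_a}(ℂ)`, as block diagonal matrices -/
def SLL {r : ℕ} (n : Fin r → ℕ) : Set (Matrix (Σ a, Fin (n a)) (Σ a, Fin (n a)) ℂ) :=
  {g | ∃ h : ∀ a, Matrix (Fin (n a)) (Fin (n a)) ℂ, (∀ a, (h a).det = 1) ∧ g = Matrix.blockDiagonal' h}

/-- the variables: one for every `i`, and the entries of a matrix for every `i` -/
abbrev Vars {k : ℕ} {r : Fin k → ℕ} (n : ∀ i, Fin (r i) → ℕ) : Type :=
  Σ i : Fin k, Option ((Σ a, Fin (n i a)) × (Σ a, Fin (n i a)))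

/-- the point with the coordinates `l_i` and the entries of the matrices `X_i` -/
def point {k : ℕ} {r : Fin k → ℕ} {n : ∀ i, Fin (r i) → ℕ} (l : Fin k → ℂ)
    (X : ∀ i, Matrix (Σ a, Fin (n i a)) (Σ a, Fin (n i a)) ℂ) : Vars n → ℂ
  | ⟨i, none⟩ => l i
  | ⟨i, some p⟩ => X i p.1 p.2

/-- There is a polynomial relation of degree `≤ δ` with coefficients in `V` between the numbers `log t_i` and the
entries of the matrices `YY_i(1 / t_i) Ω_i` which does not vanish identically on `ℂ^k × ∏_i (∏_a SL_{n_{i,a}}(ℂ)) Ω_i`. -/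
def Exceptional (δ : ℕ) (V : Submodule ℚ ℂ) {k : ℕ} {r : Fin k → ℕ} {n : ∀ i, Fin (r i) → ℕ}
    (β : ∀ i a, Fin (n i a) → ℚ) (Ω : ∀ i, Matrix (Σ a, Fin (n i a)) (Σ a, Fin (n i a)) ℂ) (t : Fin k → ℕ) : Prop :=
  ∃ P : MvPolynomial (Vars n) ℂ, P.totalDegree ≤ δ ∧ (∀ s, P.coeff s ∈ V) ∧
    MvPolynomial.aeval (point (fun i => ((Real.log (t i) : ℝ) : ℂ)) fun i => YY (β i) (t i) * Ω i) P = 0 ∧
    ∃ (l : Fin k → ℂ) (g : ∀ i, Matrix (Σ a, Fin (n i a)) (Σ a, Fin (n i a)) ℂ), (∀ i, g i ∈ SLL (n i)) ∧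
      MvPolynomial.aeval (point l fun i => g i * Ω i) P ≠ 0

open Pool.Agent.E8helper43.HS in
theorem frob_eq {n : ℕ} (β : Fin n → ℚ) (k : ℕ) : frob β k = Pool.Agent.Y119.HY.aq n (QL β) k := by
  unfold frob Pool.Agent.Y119.HY.aq
  refine Finset.prod_congr rfl fun l _ => ?_
  congr 1
  unfold QL
  rw [map_prod]
  refine Finset.prod_congr rfl fun j _ => ?_
  simp only [map_sub, Polynomial.aeval_X, Polynomial.aeval_C]
  rfl

open Pool.Agent.E8helper43.HS in
theorem Y_eq {n : ℕ} (β : Fin n → ℚ) (t : ℕ) : Y β t =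
    Pool.Agent.Y119.HY.Hf (Hk (Pool.Agent.Y119.HY.Hq n (QL β))) (((1 / (t : ℝ) : ℝ)) : ℂ) *
      Pool.Agent.Y119.HY.E (Pool.Agent.Y119.HY.cm (Pool.Agent.Y119.HY.Am n)) (-((Real.log t : ℝ) : ℂ)) := by
  ext i j
  unfold Y
  rw [Matrix.of_apply, Matrix.mul_apply]
  have hE : ∀ c : Fin n, Pool.Agent.Y119.HY.E (Pool.Agent.Y119.HY.cm (Pool.Agent.Y119.HY.Am n))
      (-((Real.log t : ℝ) : ℂ)) c j = ∑ l ∈ Finset.range n,
        if (j : ℕ) = c + l then ((Real.log (1 / t) ^ l / l.factorial : ℝ) : ℂ) else 0 := by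
    intro c
    unfold Pool.Agent.Y119.HY.E
    rw [Matrix.sum_apply]
    refine Finset.sum_congr rfl fun l _ => ?_
    rw [Matrix.smul_apply, ← Pool.Agent.Y119.HY.cm_pow, Pool.Agent.Y119.HY.cm_apply, Pool.Agent.Y119.HY.Am_pow, smul_eq_mul,
      one_div, Real.log_inv]
    split_ifs
    · push_cast
      ring
    · simp
  simp only [hE, Finset.mul_sum]
  rw [Finset.sum_comm]
  have hsub : Finset.range ((j : ℕ) + 1) ⊆ Finset.range n := by
    intro l hl
    rw [Finset.mem_range] at hl ⊢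
    have := j.2
    omega
  refine Finset.sum_subset_zero_on_sdiff hsub (fun l hl => ?_) fun l hl => ?_
  · rw [Finset.mem_sdiff, Finset.mem_range, Finset.mem_range] at hl
    refine Finset.sum_eq_zero fun c _ => ?_
    rw [if_neg (by omega), mul_zero]
  · rw [Finset.mem_range] at hl
    have hj := j.2
    rw [Finset.sum_eq_single (⟨(j : ℕ) - l, by omega⟩ : Fin n)]
    · rw [if_pos (by simp only; omega), mul_comm]
      congr 1
      unfold Pool.Agent.Y119.HY.Hf Pool.Agent.Y119.HY.ps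
      rw [Matrix.of_apply]
      refine tsum_congr fun k => ?_
      show _ = ((Pool.Agent.Y119.HY.hq n (QL β) k i ((j : ℕ) - l) : ℚ) : ℂ) * (((1 / (t : ℝ) : ℝ)) : ℂ) ^ k
      rw [frob_eq]
      unfold Pool.Agent.Y119.HY.hq
      push_cast
      rfl
    · intro c _ hc
      rw [if_neg, mul_zero]
      intro h
      apply hc
      apply Fin.ext
      simp only
      omega
    · intro h
      exact absurd (Finset.mem_univ _) h

/-- the passage to matrices indexed by `Fin` -/
def re {r : ℕ} {n : Fin r → ℕ} (M : Matrix (Σ a, Fin (n a)) (Σ a, Fin (n a)) ℂ) :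
    Matrix (Fin (∑ a, n a)) (Fin (∑ a, n a)) ℂ := M.submatrix finSigmaFinEquiv.symm finSigmaFinEquiv.symm

theorem re_mul {r : ℕ} {n : Fin r → ℕ} (M N : Matrix (Σ a, Fin (n a)) (Σ a, Fin (n a)) ℂ) : re (M * N) = re M * re N := by
  unfold re
  rw [Matrix.submatrix_mul_equiv]

open Pool.Agent.E8helper43.HS in
theorem YY_eq {r : ℕ} {n : Fin r → ℕ} (β : ∀ a, Fin (n a) → ℚ) (t : ℕ) :
    re (YY β t) = Ys (blk fun a => An (n a)) (HB β) t := by
  unfold Ys
  rw [cmA, Hk_HB, blk_Hf, blk_E fun a => Pool.Agent.Y119.HY.Ac_nil, ← blk_mul]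
  unfold re YY blk
  congr 2
  funext a
  exact Y_eq (β a) t

/-- the variables -/
def ev {k : ℕ} {r : Fin k → ℕ} (n : ∀ i, Fin (r i) → ℕ) : Vars n ≃ Pool.Agent.Y119.HZ.Jx fun i => ∑ a, n i a :=
  Equiv.sigmaCongrRight fun _ => Equiv.optionCongr (Equiv.prodCongr finSigmaFinEquiv finSigmaFinEquiv)

theorem point_eq {k : ℕ} {r : Fin k → ℕ} {n : ∀ i, Fin (r i) → ℕ} (l : Fin k → ℂ)
    (X : ∀ i, Matrix (Σ a, Fin (n i a)) (Σ a, Fin (n i a)) ℂ) :
    point l X = Pool.Agent.Y119.HZ.pw (n := fun i => ∑ a, n i a) l (fun i => re (X i)) ∘ ev n := by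
  funext v
  obtain ⟨i, _ | p⟩ := v
  · rfl
  · show X i p.1 p.2 = X i (finSigmaFinEquiv.symm (finSigmaFinEquiv p.1)) (finSigmaFinEquiv.symm (finSigmaFinEquiv p.2))
    rw [Equiv.symm_apply_apply, Equiv.symm_apply_apply]

open Pool.Agent.E8helper43.HS in
/-- Let `β_{i,a}`, `1 ≤ i ≤ k`, `1 ≤ a ≤ r_i`, be finite families of rational numbers which are not integers, with sum
`0`, which are not permutations of their negatives modulo `ℤ`. Assume that for `a ≠ b` the family `β_{i,a}` is neither a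
permutation of `β_{i,b}` nor of `-β_{i,b}` modulo `ℤ`. Let `YY_i(1/t)` be the direct sum of the period matrices at `1/t`
of the hypergeometric equations `(θ^n - z ∏_j (θ - β_{i,a,j})) f = 0`, `n = n_{i,a}`. Then `YY_i(1/t)` lies in
`∏_a SL_{n_{i,a}}` for `t ≥ 2`, and for all `δ` and `D` there are `c > 0` and `C` such that for every `ℚ`-space `V` of
complex numbers of dimension `≤ D`, all complex matrices `Ω_i` and every box `∏_i (x_i, x_i + N]` with `x_i ≥ 1` the
following holds for all but `C N^(k-1) ∑_i (1 + N / (x_i + N)^c)` integral points `t` of the box: every polynomial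
relation of degree `≤ δ` with coefficients in `V` between the numbers `log t_i` and the entries of the matrices
`YY_i(1 / t_i) Ω_i` vanishes identically on `ℂ^k × ∏_i (∏_a SL_{n_{i,a}}(ℂ)) Ω_i`. -/
theorem result (k : ℕ) (r : Fin k → ℕ) (n : ∀ i, Fin (r i) → ℕ) (β : ∀ i a, Fin (n i a) → ℚ)
    (hβ : ∀ i a, NonSelfDual (β i a))
    (hne : ∀ i, ∀ a b : Fin (r i), a ≠ b → ¬ Equiv' (β i a) (β i b) ∧ ¬ Equiv' (β i a) fun j => -β i b j) :
    (∀ i, ∀ t : ℕ, 2 ≤ t → YY (β i) t ∈ SLL (n i)) ∧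
    ∀ δ D : ℕ, ∃ c C : ℝ, 0 < c ∧ ∀ V : Submodule ℚ ℂ, Module.Finite ℚ V → Module.finrank ℚ V ≤ D →
      ∀ (Ω : ∀ i, Matrix (Σ a, Fin (n i a)) (Σ a, Fin (n i a)) ℂ) (x : Fin k → ℕ) (N : ℕ), (∀ i, 1 ≤ x i) → 1 ≤ N →
      (({t : Fin k → ℕ | (∀ i, x i < t i ∧ t i ≤ x i + N) ∧ Exceptional δ V β Ω t}.ncard : ℕ) : ℝ) ≤
        C * (N : ℝ) ^ (k - 1) * ∑ i, (1 + N / ((x i : ℝ) + N) ^ c) := by
  classical
  -- the data
  have hBD : ∀ i a, BD (β i a) := by
    intro i a
    obtain ⟨h1, h2, h3⟩ := hβ i a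
    refine ⟨?_, h2, h1⟩
    by_contra hlt
    have hcases : n i a = 0 ∨ n i a = 1 := by omega
    rcases hcases with h0 | h0
    · refine h3 ⟨Equiv.refl _, fun j => ?_⟩
      have := j.2
      omega
    · have hsub : ∀ j : Fin (n i a), j = ⟨0, by omega⟩ := fun j => Fin.ext (by have := j.2; simp only; omega)
      have h4 : β i a ⟨0, by omega⟩ = 0 := by
        rw [← h2]
        refine (Finset.sum_eq_single_of_mem _ (Finset.mem_univ _) fun b _ hb => absurd (hsub b) hb).symm
      exact h1 _ 0 (by rw [h4]; simp)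
  have hH : ∀ i, Hyp (β i) := fun i =>
    ⟨hBD i, fun a => (hβ i a).2.2, fun a b hab => (hne i a b hab).1, fun a b hab => (hne i a b hab).2⟩
  have hYmem : ∀ i (t : ℕ), 2 ≤ t → Ys (blk fun a => An (n i a)) (HB (β i)) t ∈ SLb (n i) := by
    intro i t ht
    have ht' : (2 : ℝ) ≤ t := by exact_mod_cast ht
    exact mul_mem (Hf_mem (hBD i) (x := 1 / (t : ℝ)) (by positivity) (by rw [div_lt_one (by linarith)]; linarith)) (E_mem _)
  refine ⟨fun i t ht => ?_, fun δ D => ?_⟩
  · refine ⟨fun a => Y (β i a) t, fun a => ?_, rfl⟩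
    have ht' : (2 : ℝ) ≤ t := by exact_mod_cast ht
    show (Y (β i a) t).det = 1
    rw [Y_eq, Matrix.det_mul, Hf_det (hBD i a) (x := 1 / (t : ℝ)) (by positivity)
      (by rw [div_lt_one (by linarith)]; linarith), det_E Pool.Agent.Y119.HY.Ac_nil, mul_one]
  obtain ⟨c, C, hc, -, hmain⟩ := sys_tuples k δ D (fun i => ∑ a, n i a) (fun i => blk fun a => An (n i a))
    (fun i => blk fun a => Pool.Agent.Y119.HY.Bm (n i a) (QL (β i a))) (fun i => HB (β i)) (fun i => gs_HB (hBD i)) (fun i => SLb (n i))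
    (fun i => gg_blk (hH i))
  refine ⟨c, C, hc, ?_⟩
  intro V hVf hV Ω x N hx hN
  set S := {t : Fin k → ℕ | (∀ i, x i < t i ∧ t i ≤ x i + N) ∧ Exceptional δ V β Ω t} with hS
  have hfin : S.Finite := by
    refine (Set.finite_Iic (fun i : Fin k => x i + N)).subset ?_
    intro t ht i
    exact (ht.1 i).2
  rw [Set.ncard_eq_toFinset_card S hfin]
  refine hmain V hV (fun i => re (Ω i)) x N hx hN _ fun t ht => ?_
  have ht' : t ∈ S := hfin.mem_toFinset.1 ht
  obtain ⟨hbox, P, h1, h2, h3, l, g, hg, h4⟩ := ht'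
  refine ⟨hbox, MvPolynomial.rename (ev n) P, (MvPolynomial.totalDegree_rename_le _ _).trans h1, fun s => ?_, ?_, l, ?_⟩
  · have hs : s = Finsupp.mapDomain (ev n) (Finsupp.mapDomain (ev n).symm s) := by
      rw [← Finsupp.mapDomain_comp]
      have : (⇑(ev n) ∘ ⇑(ev n).symm) = id := by
        funext v
        exact (ev n).apply_symm_apply v
      rw [this, Finsupp.mapDomain_id]
    rw [hs, MvPolynomial.coeff_rename_mapDomain _ (ev n).injective]
    exact h2 _
  · rw [MvPolynomial.aeval_rename]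
    rw [point_eq] at h3
    have e1 : (fun i => re (YY (β i) (t i) * Ω i)) = fun i => Ys (blk fun a => An (n i a)) (HB (β i)) (t i) * re (Ω i) := by
      funext i
      rw [re_mul, YY_eq]
    rw [e1] at h3
    exact h3
  · -- the point of the group
    have ht2 : ∀ i, 2 ≤ t i := fun i => by
      have := (hbox i).1
      have := hx i
      omega
    choose W hW hW1 hW2 using fun i => inv_mem (hYmem i (t i) (ht2 i))
    have hg' : ∀ i, re (g i) ∈ SLb (n i) := by
      intro i
      obtain ⟨h, hh, he⟩ := hg i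
      exact ⟨h, hh, by rw [he]; rfl⟩
    refine ⟨fun i => W i * re (g i), fun i => mul_mem (hW i) (hg' i), ?_⟩
    rw [MvPolynomial.aeval_rename]
    rw [point_eq] at h4
    have e1 : (fun i => Ys (blk fun a => An (n i a)) (HB (β i)) (t i) * (W i * re (g i)) * re (Ω i)) =
        fun i => re (g i * Ω i) := by
      funext i
      rw [← Matrix.mul_assoc, hW1 i, one_mul, re_mul]
    rw [e1]
    exact h4

end Pool.Agent.Results.MP_57341d_ag.NonSelfDualMotivesH43
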