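import Pool.Agent.E8helper3.HO.CapO2

/-!
# Periods of self-dual hypergeometric motives of all orders: for almost all tuples of fibres all relations of bounded
degree between the periods come from the symplectic and orthogonal torsors

Let `β_1, …, β_m` be rational numbers which are not integers, `e ∈ {0, 1}`, `n = 2m + e` and `θ = z d/dz`. The
hypergeometric operator `θ^n - z (θ - 1/2)^e ∏_j (θ - β_j) (θ + β_j)` has maximally unipotent monodromy at `z = 0`, and
up to contiguity these are all self-dual hypergeometric operators with this property whose exponents at infinity are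
not integers. For `e = 0` its solutions are periods of odd dimensional varieties of Calabi–Yau type and the group is the
symplectic group. For `e = 1` the dimension is even, for example `m = 1`, `β = 1/4` belongs to the mirror family of the
quartic K3 surfaces and `m = 2`, `β = (1/6, 1/3)` to the mirror family of the sextic fourfolds; the group is then the
full orthogonal group in `2m + 1` variables, the intersection form in the basis `1, θ, …, θ^(n-1)` depends on `z`, and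
the period matrices lie in a torsor which is non-trivial over `ℚ(z)`. We prove that for almost all tuples of fibres
`z = 1 / t_i` all relations of bounded degree, over any finite dimensional space of constants, follow from the fact
that the period matrices lie in these torsors.
-/

set_option autoImplicit false

open PowerSeries Pool.Agent.Y119.HZ

namespace Pool.Agent.Results.MP_57341d_ag.SelfDualAllOrdersH3

/-- the power series `k + ε` in the variable `ε` -/
noncomputable def shift (k : ℕ) : PowerSeries ℚ := C (k : ℚ) + X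

/-- `a_k(ε) = ∏_{l < k} (l + ε - 1/2)^e ∏_j ((l + ε)^2 - β_j^2) / (l + 1 + ε)^n`, where `n = 2m + e`. The series
`∑_k a_k(ε) z^(k + ε)` solves the equation `(θ^n - z (θ - 1/2)^e ∏_j (θ^2 - β_j^2)) f = ε^n z^ε`, hence its
coefficients `f_j` at `ε^j` with `j < n` are solutions of the homogeneous equation. -/
noncomputable def frob (e : ℕ) {m : ℕ} (β : Fin m → ℚ) (k : ℕ) : PowerSeries ℚ :=
  ∏ l ∈ Finset.range k, (((shift l - C (1 / 2)) ^ e * ∏ j, (shift l ^ 2 - C (β j ^ 2))) *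
    ((shift (l + 1))⁻¹) ^ (2 * m + e))

/-- The matrix with the entries `(θ^i f_j)(1 / t)`, where `f_j(z)` is the coefficient of `ε^j` in the series
`∑_k a_k(ε) z^(k + ε)`, `z^ε = ∑_l (log z)^l ε^l / l!`. -/
noncomputable def Y (e : ℕ) {m : ℕ} (β : Fin m → ℚ) (t : ℕ) : Matrix (Fin (2 * m + e)) (Fin (2 * m + e)) ℂ :=
  Matrix.of fun i j => ∑ l ∈ Finset.range ((j : ℕ) + 1), ((Real.log (1 / t) ^ l / l.factorial : ℝ) : ℂ) *
    ∑' k : ℕ, ((coeff ((j : ℕ) - l) (shift k ^ (i : ℕ) * frob e β k) : ℚ) : ℂ) * (1 / (t : ℂ)) ^ k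

/-- the polynomial `q = (x - 1/2)^e ∏_j (x^2 - β_j^2)` -/
noncomputable def q (e : ℕ) {m : ℕ} (β : Fin m → ℚ) : Polynomial ℚ :=
  (Polynomial.X - Polynomial.C (1 / 2)) ^ e * ∏ j, (Polynomial.X ^ 2 - Polynomial.C (β j ^ 2))

/-- the polynomial `p = (x^2 - 1/4)^e ∏_j (x^2 - β_j^2)` -/
noncomputable def p (e : ℕ) {m : ℕ} (β : Fin m → ℚ) : Polynomial ℚ :=
  (Polynomial.X ^ 2 - Polynomial.C (1 / 4)) ^ e * ∏ j, (Polynomial.X ^ 2 - Polynomial.C (β j ^ 2))

/-- The form at the origin: the entry `(i, j)` is `(-1)^i p_{i+j+1-n}` for `i + j + 1 ≥ n` and `0` otherwise. -/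
noncomputable def J₀ (e : ℕ) {m : ℕ} (β : Fin m → ℚ) : Matrix (Fin (2 * m + e)) (Fin (2 * m + e)) ℂ :=
  Matrix.of fun i j => if 2 * m + e ≤ (i : ℕ) + j + 1 then
    (((-1) ^ (i : ℕ) * (p e β).coeff (i + j + 1 - (2 * m + e)) : ℚ) : ℂ) else 0

/-- The intersection form of the fibre at `z = 1 / t`: the entry `(i, j)` is that of `J₀` minus
`e q_i q_j / (t - 1)`. -/
noncomputable def J (e : ℕ) {m : ℕ} (β : Fin m → ℚ) (t : ℕ) : Matrix (Fin (2 * m + e)) (Fin (2 * m + e)) ℂ :=
  Matrix.of fun i j => J₀ e β i j - (e : ℂ) / ((t : ℂ) - 1) * (((q e β).coeff i * (q e β).coeff j : ℚ) : ℂ)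

/-- the matrices `X` with `X^T J(t) X = J₀` -/
def Torsor (e : ℕ) {m : ℕ} (β : Fin m → ℚ) (t : ℕ) : Set (Matrix (Fin (2 * m + e)) (Fin (2 * m + e)) ℂ) :=
  {X | X.transpose * J e β t * X = J₀ e β}

/-- the point with the coordinates `l_i` and the entries of the matrices `X_i` -/
def point {k : ℕ} {n : Fin k → ℕ} (l : Fin k → ℂ) (X : ∀ i, Matrix (Fin (n i)) (Fin (n i)) ℂ) :
    (Σ i : Fin k, Option (Fin (n i) × Fin (n i))) → ℂ
  | ⟨i, none⟩ => l i
  | ⟨i, some p⟩ => X i p.1 p.2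

/-- There is a polynomial relation of degree `≤ δ` with coefficients in `V` between the numbers `log t_i` and the
entries of the matrices `Y_i(1 / t_i) Ω_i` which does not vanish identically on `ℂ^k × ∏_i Torsor_i(t_i) Ω_i`. -/
def Exceptional (δ : ℕ) (V : Submodule ℚ ℂ) {k : ℕ} {m : Fin k → ℕ} (e : Fin k → ℕ) (β : ∀ i, Fin (m i) → ℚ)
    (Ω : ∀ i, Matrix (Fin (2 * m i + e i)) (Fin (2 * m i + e i)) ℂ) (t : Fin k → ℕ) : Prop :=
  ∃ P : MvPolynomial (Σ i : Fin k, Option (Fin (2 * m i + e i) × Fin (2 * m i + e i))) ℂ,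
    P.totalDegree ≤ δ ∧ (∀ s, P.coeff s ∈ V) ∧
    MvPolynomial.aeval (point (n := fun i => 2 * m i + e i) (fun i => ((Real.log (t i) : ℝ) : ℂ))
      fun i => Y (e i) (β i) (t i) * Ω i) P = 0 ∧
    ∃ (l : Fin k → ℂ) (X : ∀ i, Matrix (Fin (2 * m i + e i)) (Fin (2 * m i + e i)) ℂ),
      (∀ i, X i ∈ Torsor (e i) (β i) (t i)) ∧
      MvPolynomial.aeval (point (n := fun i => 2 * m i + e i) l fun i => X i * Ω i) P ≠ 0

open Pool.Agent.E8helper3.HO in
theorem frob_eq (e : ℕ) {m : ℕ} (β : Fin m → ℚ) (k : ℕ) :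
    frob e β k = Pool.Agent.Y119.HY.aq (2 * m + e) (Qe e β) k := by
  unfold frob Pool.Agent.Y119.HY.aq
  refine Finset.prod_congr rfl fun l _ => ?_
  congr 1
  unfold Qe
  rw [map_mul, map_prod, map_pow]
  congr 1
  · congr 1
    simp only [map_sub, Polynomial.aeval_X, Polynomial.aeval_C]
    rfl
  · refine Finset.prod_congr rfl fun j _ => ?_
    simp only [map_sub, map_pow, Polynomial.aeval_X, Polynomial.aeval_C]
    rfl

theorem J₀_eq (e : ℕ) {m : ℕ} (β : Fin m → ℚ) : J₀ e β = Pool.Agent.E8helper3.HO.Je e β := by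
  ext i j
  unfold Pool.Agent.E8helper3.HO.Je
  rw [Pool.Agent.Y119.HY.cm_apply]
  unfold J₀ Pool.Agent.Y119.HY.Jm
  rw [Matrix.of_apply, Matrix.of_apply]
  split_ifs
  · rfl
  · simp

theorem J_eq (e : ℕ) {m : ℕ} (β : Fin m → ℚ) {t : ℕ} (ht : 2 ≤ t) :
    J e β t = Pool.Agent.E8helper3.HO.Jze e β (((1 / (t : ℝ) : ℝ)) : ℂ) := by
  have h2 : (2 : ℝ) ≤ t := by exact_mod_cast ht
  have h0 : (t : ℂ) ≠ 0 := by
    have : (t : ℝ) ≠ 0 := by positivity
    exact_mod_cast this
  have h1 : (t : ℂ) - 1 ≠ 0 := by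
    have h3 : (t : ℝ) - 1 ≠ 0 := by linarith
    have h4 : (((t : ℝ) - 1 : ℝ) : ℂ) ≠ 0 := by exact_mod_cast h3
    push_cast at h4
    exact h4
  ext i j
  unfold J Pool.Agent.E8helper3.HO.Jze
  rw [Matrix.of_apply, Matrix.sub_apply, Matrix.smul_apply, J₀_eq, smul_eq_mul, Pool.Agent.Y119.HY.cm_apply]
  congr 1
  congr 1
  push_cast
  have h3 : 1 - 1 / (t : ℂ) = ((t : ℂ) - 1) / t := by
    field_simp
  rw [h3]
  field_simp

theorem Y_eq (e : ℕ) {m : ℕ} (β : Fin m → ℚ) (t : ℕ) :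
    Y e β t = Yt (2 * m + e) (Pool.Agent.E8helper3.HO.Qe e β) t := by
  ext i j
  unfold Y Yt
  rw [Matrix.of_apply, Matrix.mul_apply]
  have hE : ∀ c : Fin (2 * m + e), Pool.Agent.Y119.HY.E (Pool.Agent.Y119.HY.cm (Pool.Agent.Y119.HY.Am (2 * m + e)))
      (-((Real.log t : ℝ) : ℂ)) c j = ∑ l ∈ Finset.range (2 * m + e),
        if (j : ℕ) = c + l then ((Real.log (1 / t) ^ l / l.factorial : ℝ) : ℂ) else 0 := by
    intro c
    unfold Pool.Agent.Y119.HY.E
    rw [Matrix.sum_apply]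
    refine Finset.sum_congr rfl fun l _ => ?_
    rw [Matrix.smul_apply, ← Pool.Agent.Y119.HY.cm_pow, Pool.Agent.Y119.HY.cm_apply, Pool.Agent.Y119.HY.Am_pow, smul_eq_mul,
      one_div, Real.log_inv]
    split_ifs
    · push_cast
      ring
    · simp
  simp only [hE, Finset.mul_sum]
  rw [Finset.sum_comm]
  have hsub : Finset.range ((j : ℕ) + 1) ⊆ Finset.range (2 * m + e) := by
    intro l hl
    rw [Finset.mem_range] at hl ⊢
    have := j.2
    omega
  refine Finset.sum_subset_zero_on_sdiff hsub (fun l hl => ?_) fun l hl => ?_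
  · rw [Finset.mem_sdiff, Finset.mem_range, Finset.mem_range] at hl
    refine Finset.sum_eq_zero fun c _ => ?_
    rw [if_neg (by omega), mul_zero]
  · rw [Finset.mem_range] at hl
    have hj := j.2
    rw [Finset.sum_eq_single (⟨(j : ℕ) - l, by omega⟩ : Fin (2 * m + e))]
    · rw [if_pos (by simp only; omega), mul_comm]
      congr 1
      unfold Pool.Agent.Y119.HY.Hf Pool.Agent.Y119.HY.ps
      rw [Matrix.of_apply]
      refine tsum_congr fun k => ?_
      show _ = ((Pool.Agent.Y119.HY.hq (2 * m + e) (Pool.Agent.E8helper3.HO.Qe e β) k i ((j : ℕ) - l) : ℚ) : ℂ) *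
        (((1 / (t : ℝ) : ℝ)) : ℂ) ^ k
      rw [frob_eq]
      unfold Pool.Agent.Y119.HY.hq shift Pool.Agent.Y119.HY.kx
      push_cast
      rfl
    · intro c _ hc
      rw [if_neg, mul_zero]
      intro h
      apply hc
      apply Fin.ext
      simp only
      omega
    · intro h
      exact absurd (Finset.mem_univ _) h

theorem point_eq {k : ℕ} {n : Fin k → ℕ} (l : Fin k → ℂ) (X : ∀ i, Matrix (Fin (n i)) (Fin (n i)) ℂ) :
    point l X = pw l X := by
  funext v
  obtain ⟨i, _ | p⟩ := v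
  · rfl
  · rfl

/-- Let `e_i ∈ {0, 1}` and let `β_i`, `1 ≤ i ≤ k`, be finite non-empty families of rational numbers which are not
integers. Let `J_i(t)` and `Y_i` be the intersection forms and the period matrices of the hypergeometric equations
`(θ^(n_i) - z (θ - 1/2)^(e_i) ∏_j (θ^2 - β_{i,j}^2)) f = 0`, `n_i = 2 m_i + e_i`. Then the forms `J_i` are
non-degenerate, alternating for `e_i = 0` and symmetric for `e_i = 1`, the matrices `Y_i(1 / t)` satisfy
`Y_i^T J_i(t) Y_i = J_i` for `t ≥ 2`, and for all `δ` and `D` there are `c > 0` and `C` such that for every `ℚ`-space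
`V` of complex numbers of dimension `≤ D`, all complex matrices `Ω_i` and every box `∏_i (x_i, x_i + N]` with `x_i ≥ 1`
the following holds for all but `C N^(k-1) ∑_i (1 + N / (x_i + N)^c)` integral points `t` of the box: every polynomial
relation of degree `≤ δ` with coefficients in `V` between the numbers `log t_i` and the entries of the matrices
`Y_i(1 / t_i) Ω_i` vanishes identically on the product of `ℂ^k` and the varieties of the matrices `X_i Ω_i` with
`X_i^T J_i(t_i) X_i = J_i`. -/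
theorem result (k : ℕ) (m e : Fin k → ℕ) (hm : ∀ i, 1 ≤ m i) (he : ∀ i, e i ≤ 1) (β : ∀ i, Fin (m i) → ℚ)
    (hβ : ∀ i j, ∀ a : ℤ, β i j ≠ a) :
    (∀ i, (J₀ (e i) (β i)).transpose = (-1 : ℂ) ^ (e i + 1) • J₀ (e i) (β i) ∧ (J₀ (e i) (β i)).det ≠ 0 ∧
      ∀ t : ℕ, 2 ≤ t → Y (e i) (β i) t ∈ Torsor (e i) (β i) t) ∧
    ∀ δ D : ℕ, ∃ c C : ℝ, 0 < c ∧ ∀ V : Submodule ℚ ℂ, Module.Finite ℚ V → Module.finrank ℚ V ≤ D →
      ∀ (Ω : ∀ i, Matrix (Fin (2 * m i + e i)) (Fin (2 * m i + e i)) ℂ) (x : Fin k → ℕ) (N : ℕ),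
      (∀ i, 1 ≤ x i) → 1 ≤ N →
      (({t : Fin k → ℕ | (∀ i, x i < t i ∧ t i ≤ x i + N) ∧ Exceptional δ V e β Ω t}.ncard : ℕ) : ℝ) ≤
        C * (N : ℝ) ^ (k - 1) * ∑ i, (1 + N / ((x i : ℝ) + N) ^ c) := by
  classical
  refine ⟨fun i => ⟨?_, ?_, fun t ht => ?_⟩, fun δ D => ?_⟩
  · rw [J₀_eq]
    exact Pool.Agent.E8helper3.HO.Je_trans (hm i) (hβ i) (he i)
  · rw [J₀_eq]
    exact Pool.Agent.E8helper3.HO.Je_det (hm i) (hβ i) (he i)
  · show (Y (e i) (β i) t).transpose * J (e i) (β i) t * Y (e i) (β i) t = J₀ (e i) (β i)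
    rw [J₀_eq, J_eq _ _ ht, Y_eq]
    exact Pool.Agent.E8helper3.HO.Y_form (hm i) (hβ i) (he i) ht
  obtain ⟨c, C, hc, -, hmain⟩ := Pool.Agent.E8helper3.HO.self_tuples k δ D m e hm he β hβ
  refine ⟨c, C, hc, ?_⟩
  intro V hVf hV Ω x N hx hN
  set S := {t : Fin k → ℕ | (∀ i, x i < t i ∧ t i ≤ x i + N) ∧ Exceptional δ V e β Ω t} with hS
  have hfin : S.Finite := by
    refine (Set.finite_Iic (fun i : Fin k => x i + N)).subset ?_
    intro t ht i
    exact (ht.1 i).2
  rw [Set.ncard_eq_toFinset_card S hfin]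
  refine hmain V hV Ω x N hx hN _ fun t ht => ?_
  have ht' : t ∈ S := hfin.mem_toFinset.1 ht
  obtain ⟨hbox, P, h1, h2, h3, l, X, hX, h4⟩ := ht'
  have ht2 : ∀ i, 2 ≤ t i := fun i => by
    have := (hbox i).1
    have := hx i
    omega
  refine ⟨hbox, P, h1, h2, ?_, l, X, fun i => ?_, ?_⟩
  · rw [point_eq] at h3
    simp only [Y_eq] at h3
    exact h3
  · have h5 : (X i).transpose * J (e i) (β i) (t i) * X i = J₀ (e i) (β i) := hX i
    rw [J₀_eq, J_eq _ _ (ht2 i)] at h5
    exact h5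
  · rw [point_eq] at h4
    exact h4

end Pool.Agent.Results.MP_57341d_ag.SelfDualAllOrdersH3
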